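import Pool.Agent.Y377.ST.Main
import Pool.Agent.Y455.ST.Theta
import Pool.Agent.Y837.ST.Uni
import Pool.Agent.TH717.GO.Conv

/-!
The theorem and its converse.
-/

set_option autoImplicit false

namespace Pool.Agent.Y377.ST

open Pool.Agent.H533R3.SL Pool.Agent.TH717.GO

theorem pev_const {L ι : Type} [CommRing L] [Fintype ι] [DecidableEq ι] {e : ℕ} (b : L)
    (w : ι → L) : pev (fun m : ι → Fin (e + 1) => if m = 0 then b else 0) w = b := by
  unfold pev
  rw [Finset.sum_eq_single 0]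
  · simp
  · intro m _ hm
    change (if m = 0 then b else 0) * _ = 0
    rw [if_neg hm, zero_mul]
  · intro h
    exact absurd (Finset.mem_univ _) h

theorem pev_lin {L ι κ : Type} [CommRing L] [Fintype ι] [DecidableEq ι] [Fintype κ] (b : κ → L)
    (V : κ → ι) : ∃ c : (ι → Fin (1 + 1)) → L, ∀ w : ι → L, ∑ t, b t * w (V t) = pev c w := by
  classical
  refine ⟨fun m => ∑ t, if m = (fun u => if u = V t then 1 else 0) then b t else 0,
    fun w => ?_⟩
  unfold pev
  simp_rw [Finset.sum_mul]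
  rw [Finset.sum_comm]
  refine Finset.sum_congr rfl fun t _ => ?_
  rw [Finset.sum_eq_single (fun u => if u = V t then 1 else 0)]
  · rw [if_pos rfl, Finset.prod_eq_single (V t)]
    · simp
    · intro u _ hu
      simp [hu]
    · intro h
      exact absurd (Finset.mem_univ _) h
  · intro m _ hm
    rw [if_neg hm, zero_mul]
  · intro h
    exact absurd (Finset.mem_univ _) h

/-- orbits of groups of matrices -/
theorem iterVec_orb {K H : Type} [Field K] [Group H] {n r : ℕ}
    (M : Matrix (Fin (n + 1)) (Fin r) K) (ρ : H →* Matrix.GeneralLinearGroup (Fin r) K)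
    (v : Fin r → K) : IterVec 1 r 1 (orb M ρ v) := by
  classical
  refine ⟨fun _ h => (ρ h : Matrix (Fin r) (Fin r) K),
    fun _ h => (((ρ h)⁻¹ : Matrix.GeneralLinearGroup (Fin r) K) : Matrix (Fin r) (Fin r) K),
    ⟨fun _ h => Units.mul_inv (ρ h), fun l g i j => ?_⟩, fun j => ?_⟩
  · refine ⟨fun m => if m = 0 then (ρ g : Matrix (Fin r) (Fin r) K) i j else 0, fun h => ?_⟩
    rw [pev_const, map_mul, Units.val_mul, Matrix.mul_assoc, Units.mul_inv, Matrix.mul_one]
  · obtain ⟨c, hc⟩ := pev_lin (L := K) (ι := Ix 1 r) (κ := Fin r × Fin r)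
      (fun t => M j t.1 * v t.2) (fun t => (0, true, t.1, t.2))
    refine ⟨c, fun h => ?_⟩
    rw [← hc, Fintype.sum_prod_type]
    change ∑ i, M j i * ∑ i', (ρ h : Matrix (Fin r) (Fin r) K) i i' * v i' = _
    refine Finset.sum_congr rfl fun i _ => ?_
    rw [Finset.mul_sum]
    refine Finset.sum_congr rfl fun i' _ => ?_
    change _ = M j i * v i' * (ρ h : Matrix (Fin r) (Fin r) K) i i'
    ring

/-- **Strong Lang for iterated recurrences, and its converse.** -/
theorem strong_iff {k : Type} [Field k] [NumberField k] {n : ℕ}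
    (FF : Finset (MvPolynomial (Fin (n + 1)) k)) (hhom : ∀ F ∈ FF, ∃ e, F.IsHomogeneous e)
    (hprime : (Ideal.span (FF : Set (MvPolynomial (Fin (n + 1)) k))).IsPrime) :
    (¬ Uniruled (Ideal.span (FF : Set (MvPolynomial (Fin (n + 1)) k))) → ∀ s r e : ℕ,
      ∃ G : MvPolynomial (Fin (n + 1)) k, (∃ d, G.IsHomogeneous d) ∧
        G ∉ Ideal.span (FF : Set (MvPolynomial (Fin (n + 1)) k)) ∧
        ∀ (L : Type) [Field L] [Algebra k L] (_ : L →+* ℂ) (H : Type) [Group H]
          (x : H → Fin (n + 1) → L), IterVec s r e x →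
          (∀ h, ∀ F ∈ FF, MvPolynomial.aeval (x h) F = 0) → (ptsOff G x).Finite) ∧
    (Uniruled (Ideal.span (FF : Set (MvPolynomial (Fin (n + 1)) k))) → ∃ r : ℕ,
      ∀ G : MvPolynomial (Fin (n + 1)) k, (∃ d, G.IsHomogeneous d) →
        G ∉ Ideal.span (FF : Set (MvPolynomial (Fin (n + 1)) k)) →
        ∃ (L : Type) (_ : Field L) (_ : NumberField L) (_ : Algebra k L)
          (x : Multiplicative ℤ → Fin (n + 1) → L), IterVec 1 r 1 x ∧
          (∀ h, ∀ F ∈ FF, MvPolynomial.aeval (x h) F = 0) ∧ (ptsOff G x).Infinite) := by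
  refine ⟨fun hnu s r e => ?_, fun hu => ?_⟩
  · have : Countable k := (Module.finBasis ℚ k).equivFun.injective.countable
    exact strong Pool.Agent.Y455.ST.t_THETA Pool.Agent.Y837.ST.t_UNI _ hhom hprime hnu s r e
  · obtain ⟨r, hr⟩ := converse FF hu
    refine ⟨r, fun G hG1 hG2 => ?_⟩
    obtain ⟨K, i1, i2, i3, ρ, M, v, -, h2, h3⟩ := hr G hG1 hG2
    exact ⟨K, i1, i2, i3, orb M ρ v, iterVec_orb M ρ v, h2, h3⟩

end Pool.Agent.Y377.ST
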