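import Pool.Agent.Y377.ST.Stm
import Pool.Agent.Y377.IR.All

/-!
Iterated recurrences of bounded complexity; homomorphisms and products.
-/

set_option autoImplicit false

namespace Pool.Agent.Y377.ST

open Pool.Agent.Y377.IR

/-- The polynomial with the coefficients `c`, of degree at most `e` in each variable, at `v`. -/
def pev {L ι : Type} [CommRing L] [Fintype ι] [DecidableEq ι] {e : ℕ}
    (c : (ι → Fin (e + 1)) → L) (v : ι → L) : L :=
  ∑ m : ι → Fin (e + 1), c m * ∏ i, v i ^ (m i : ℕ)

/-- the indices of the entries of `s` pairs of matrices of size `r` -/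
abbrev Ix (s r : ℕ) : Type := Fin s × Bool × Fin r × Fin r

section defs

variable {L H : Type} {s r : ℕ}

/-- The entries of the matrices `X_l(h)` and `Y_l(h)`. -/
def entries (X Y : Fin s → H → Matrix (Fin r) (Fin r) L) (h : H) : Ix s r → L :=
  fun v => if v.2.1 then X v.1 h v.2.2.1 v.2.2.2 else Y v.1 h v.2.2.1 v.2.2.2

/-- The entries of the matrices with numbers less than `l`; the others are replaced by zero. -/
def before [Zero L] (l : Fin s) (w : Ix s r → L) : Ix s r → L :=
  fun v => if v.1 < l then w v else 0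

/-- `X_1, ..., X_s` are functions on the group `H` with values in the invertible matrices of size
`r`, with inverses `Y_1, ..., Y_s`, such that for all `l` and `g` the entries of
`X_l(g h) X_l(h)⁻¹` are, for all `h`, the values of polynomials, of degree at most `e` in each
variable and with coefficients depending only on `l`, `g` and the entry, at the entries of `X_i(h)`
and `X_i(h)⁻¹`, `i < l`. -/
structure Iter [CommRing L] [Group H] (e : ℕ) (X Y : Fin s → H → Matrix (Fin r) (Fin r) L) :
    Prop where
  inv : ∀ l h, X l h * Y l h = 1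
  coc : ∀ (l : Fin s) (g : H) (i j : Fin r), ∃ c : (Ix s r → Fin (e + 1)) → L,
    ∀ h, (X l (g * h) * Y l h) i j = pev c (before l (entries X Y h))

/-- The coordinates of the vectors `x(h)` are the values of polynomials of degree at most `e` in
each variable at the entries of `X_1(h), X_1(h)⁻¹, ..., X_s(h), X_s(h)⁻¹`, for matrices `X_l` of
size `r` as in `Iter`. -/
def IterVec {n : ℕ} [CommRing L] [Group H] (s r e : ℕ) (x : H → Fin n → L) : Prop :=
  ∃ X Y : Fin s → H → Matrix (Fin r) (Fin r) L, Iter e X Y ∧
    ∀ j, ∃ c : (Ix s r → Fin (e + 1)) → L, ∀ h, x h j = pev c (entries X Y h)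

/-- The points with the homogeneous coordinates `x(h)`, `x(h) ≠ 0`, outside of `G = 0`. -/
def ptsOff {k : Type} {n : ℕ} [Field k] [Field L] [Algebra k L]
    (G : MvPolynomial (Fin (n + 1)) k) (x : H → Fin (n + 1) → L) :
    Set (Projectivization L (Fin (n + 1) → L)) :=
  {P | ∃ (h : H) (h0 : x h ≠ 0), MvPolynomial.aeval (x h) G ≠ 0 ∧
    P = Projectivization.mk L (x h) h0}

end defs

/-! ### Homomorphisms -/

theorem map_pev {A B ι : Type} [CommRing A] [CommRing B] [Fintype ι] [DecidableEq ι] (φ : A →+* B)
    {e : ℕ} (c : (ι → Fin (e + 1)) → A) (v : ι → A) :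
    φ (pev c v) = pev (fun m => φ (c m)) (fun i => φ (v i)) := by
  unfold pev
  rw [map_sum]
  refine Finset.sum_congr rfl fun m _ => ?_
  rw [map_mul, map_prod]
  refine congrArg _ (Finset.prod_congr rfl fun i _ => ?_)
  rw [map_pow]

theorem entries_map {A B H : Type} [CommRing A] [CommRing B] {s r : ℕ} (φ : A →+* B)
    (X Y : Fin s → H → Matrix (Fin r) (Fin r) A) (h : H) (v : Ix s r) :
    entries (fun l h => (X l h).map φ) (fun l h => (Y l h).map φ) h v = φ (entries X Y h v) := by
  unfold entries
  by_cases hb : v.2.1 = true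
  · rw [if_pos hb, if_pos hb]; rfl
  · rw [if_neg hb, if_neg hb]; rfl

theorem before_map {A B : Type} [CommRing A] [CommRing B] {s r : ℕ} (φ : A →+* B) (l : Fin s)
    (w : Ix s r → A) (v : Ix s r) : before l (fun v => φ (w v)) v = φ (before l w v) := by
  unfold before
  by_cases hb : v.1 < l
  · rw [if_pos hb, if_pos hb]
  · rw [if_neg hb, if_neg hb, map_zero]

theorem Iter.map {A B H : Type} [CommRing A] [CommRing B] [Group H] {s r e : ℕ} (φ : A →+* B)
    {X Y : Fin s → H → Matrix (Fin r) (Fin r) A} (hX : Iter e X Y) :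
    Iter e (fun l h => (X l h).map φ) (fun l h => (Y l h).map φ) where
  inv := fun l h => by
    rw [← Matrix.map_mul, hX.inv, Matrix.map_one _ (map_zero φ) (map_one φ)]
  coc := fun l g i j => by
    obtain ⟨c, hc⟩ := hX.coc l g i j
    refine ⟨fun m => φ (c m), fun h => ?_⟩
    rw [← Matrix.map_mul, Matrix.map_apply, hc h, map_pev]
    congr 1
    funext v
    rw [← before_map]
    congr 1
    funext v'
    exact (entries_map φ X Y h v').symm

theorem IterVec.map {A B H : Type} [CommRing A] [CommRing B] [Group H] {s r e n : ℕ} (φ : A →+* B)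
    {x : H → Fin n → A} (hx : IterVec s r e x) : IterVec s r e fun h j => φ (x h j) := by
  obtain ⟨X, Y, hX, hc⟩ := hx
  refine ⟨_, _, hX.map φ, fun j => ?_⟩
  obtain ⟨c, hc⟩ := hc j
  refine ⟨fun m => φ (c m), fun h => ?_⟩
  change φ (x h j) = _
  rw [hc h, map_pev]
  congr 1
  funext v
  exact (entries_map φ X Y h v).symm

/-! ### Products -/

section prod

variable {I : Type} {Hs : I → Type} [∀ a, Group (Hs a)] {A : Type} [CommRing A] {s r e n : ℕ}

theorem pev_apply {ι : Type} [Fintype ι] [DecidableEq ι] (c : (ι → Fin (e + 1)) → I → A)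
    (v : ι → I → A) (a : I) : pev c v a = pev (fun m => c m a) (fun i => v i a) :=
  map_pev (Pi.evalRingHom (fun _ : I => A) a) c v

theorem Iter.prod {X Y : ∀ a, Fin s → Hs a → Matrix (Fin r) (Fin r) A}
    (hX : ∀ a, Iter e (X a) (Y a)) :
    Iter e (fun l (h : ∀ a, Hs a) => Matrix.of fun i j (a : I) => X a l (h a) i j)
      (fun l (h : ∀ a, Hs a) => Matrix.of fun i j (a : I) => Y a l (h a) i j) where
  inv := fun l h => by
    ext i j a
    have h1 := congrFun (congrFun ((hX a).inv l (h a)) i) j
    rw [Matrix.mul_apply] at h1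
    rw [Matrix.mul_apply, Finset.sum_apply]
    change ∑ k, X a l (h a) i k * Y a l (h a) k j = _
    rw [h1, Matrix.one_apply, Matrix.one_apply]
    split_ifs <;> rfl
  coc := fun l g i j => by
    choose c hc using fun a => (hX a).coc l (g a) i j
    refine ⟨fun m a => c a m, fun h => ?_⟩
    funext a
    rw [pev_apply]
    have h1 := hc a (h a)
    rw [Matrix.mul_apply] at h1
    rw [Matrix.mul_apply, Finset.sum_apply]
    change ∑ k, X a l (g a * h a) i k * Y a l (h a) k j = _
    rw [h1]
    congr 1
    funext v
    unfold before entries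
    by_cases hb : v.1 < l
    · rw [if_pos hb, if_pos hb]
      by_cases hb' : v.2.1 = true
      · rw [if_pos hb', if_pos hb']
        rfl
      · rw [if_neg hb', if_neg hb']
        rfl
    · rw [if_neg hb, if_neg hb]
      rfl

theorem IterVec.prod {x : ∀ a, Hs a → Fin n → A} (hx : ∀ a, IterVec s r e (x a)) :
    IterVec s r e fun (h : ∀ a, Hs a) j a => x a (h a) j := by
  choose X Y hX hc using hx
  refine ⟨_, _, Iter.prod hX, fun j => ?_⟩
  choose c hc using fun a => hc a j
  refine ⟨fun m a => c a m, fun h => ?_⟩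
  funext a
  change x a (h a) j = _
  rw [pev_apply, hc a (h a)]
  congr 1
  funext v
  unfold entries
  by_cases hb' : v.2.1 = true
  · rw [if_pos hb', if_pos hb']
    rfl
  · rw [if_neg hb', if_neg hb']
    rfl

end prod

/-! ### Towers -/

section tower

variable {H : Type} [Group H] {s r e n : ℕ}

/-- the ring generated by the entries of the first matrices -/
noncomputable def ringOf (X Y : Fin s → H → Matrix (Fin r) (Fin r) ℂ) (m : ℕ) :
    Subalgebra ℂ (H → ℂ) :=
  Algebra.adjoin ℂ {f | ∃ v : Ix s r, (v.1 : ℕ) < m ∧ f = fun h => entries X Y h v}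

theorem pev_mem {ι : Type} [Fintype ι] [DecidableEq ι] (R : Subalgebra ℂ (H → ℂ))
    (c : (ι → Fin (e + 1)) → ℂ) (w : H → ι → ℂ) (hw : ∀ i, (fun h => w h i) ∈ R) :
    (fun h => pev c (w h)) ∈ R := by
  have h1 : (fun h => pev c (w h)) = ∑ m : ι → Fin (e + 1),
      c m • ∏ i, (fun h => w h i) ^ (m i : ℕ) := by
    funext h
    unfold pev
    rw [Finset.sum_apply]
    refine Finset.sum_congr rfl fun m _ => ?_
    rw [Pi.smul_apply, Finset.prod_apply, smul_eq_mul]
    rfl
  rw [h1]
  exact Subalgebra.sum_mem _ fun m _ => R.smul_mem (Subalgebra.prod_mem _ fun i _ =>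
    R.pow_mem (hw i) _) _

theorem ringOf_tow {X Y : Fin s → H → Matrix (Fin r) (Fin r) ℂ} (hX : Iter e X Y) :
    ∀ m : ℕ, m ≤ s → FTow (ringOf X Y m) := by
  intro m
  induction m with
  | zero =>
    intro _
    have h1 : ringOf X Y 0 = ⊥ := by
      unfold ringOf
      have h2 : {f | ∃ v : Ix s r, (v.1 : ℕ) < 0 ∧ f = fun h => entries X Y h v} =
          (∅ : Set (H → ℂ)) := by
        ext f
        simp
      rw [h2, Algebra.adjoin_empty]
    rw [h1]
    exact FTow.base
  | succ m ih =>
    intro hm
    have ht := ih (by omega)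
    let l : Fin s := ⟨m, hm⟩
    let X' : Matrix (Fin r) (Fin r) (H → ℂ) := Matrix.of fun i j h => X l h i j
    let Y' : Matrix (Fin r) (Fin r) (H → ℂ) := Matrix.of fun i j h => Y l h i j
    have hF : FundF (ringOf X Y m) X' Y' := by
      refine ⟨?_, ?_⟩
      · ext i j h
        have h1 := congrFun (congrFun (hX.inv l h) i) j
        rw [Matrix.mul_apply] at h1
        rw [Matrix.mul_apply, Finset.sum_apply]
        change ∑ k, X l h i k * Y l h k j = _
        rw [h1, Matrix.one_apply, Matrix.one_apply]
        split_ifs <;> rfl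
      · intro g i j
        obtain ⟨c, hc⟩ := hX.coc l g i j
        have h1 : (∑ k, tr g (X' i k) * Y' k j) =
            fun h => pev c (before l (entries X Y h)) := by
          funext h
          rw [← hc h, Matrix.mul_apply, Finset.sum_apply]
          rfl
        rw [h1]
        refine pev_mem _ c _ fun v => ?_
        unfold before
        by_cases hb : v.1 < l
        · simp only [if_pos hb]
          exact Algebra.subset_adjoin ⟨v, hb, rfl⟩
        · simp only [if_neg hb]
          exact (ringOf X Y m).zero_mem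
    have h2 : ringOf X Y (m + 1) = matF (ringOf X Y m) X' Y' := by
      apply le_antisymm
      · unfold ringOf
        rw [Algebra.adjoin_le_iff]
        rintro f ⟨v, hv, rfl⟩
        rcases Nat.lt_succ_iff_lt_or_eq.1 hv with h3 | h3
        · exact (le_sup_left : ringOf X Y m ≤ matF (ringOf X Y m) X' Y')
            (Algebra.subset_adjoin ⟨v, h3, rfl⟩)
        · have h4 : v.1 = l := Fin.ext h3
          refine (le_sup_right : Algebra.adjoin ℂ _ ≤ matF (ringOf X Y m) X' Y')
            (Algebra.subset_adjoin ⟨v.2.2.1, v.2.2.2, ?_⟩)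
          by_cases hb : v.2.1 = true
          · left
            funext h
            unfold entries
            rw [if_pos hb, h4]
            rfl
          · right
            funext h
            unfold entries
            rw [if_neg hb, h4]
            rfl
      · unfold matF
        refine sup_le ?_ ?_
        · unfold ringOf
          refine Algebra.adjoin_mono ?_
          rintro f ⟨v, hv, rfl⟩
          exact ⟨v, by omega, rfl⟩
        · rw [Algebra.adjoin_le_iff]
          rintro f ⟨i, j, h3 | h3⟩
          · refine Algebra.subset_adjoin ⟨(l, true, i, j), Nat.lt_succ_self m, ?_⟩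
            rw [h3]
            rfl
          · refine Algebra.subset_adjoin ⟨(l, false, i, j), Nat.lt_succ_self m, ?_⟩
            rw [h3]
            rfl
    rw [h2]
    exact FTow.step ht hF

theorem IterVec.tow {x : H → Fin n → ℂ} (hx : IterVec s r e x) :
    ∃ R : Subalgebra ℂ (H → ℂ), FTow R ∧ ∀ j, (fun h => x h j) ∈ R := by
  obtain ⟨X, Y, hX, hc⟩ := hx
  refine ⟨ringOf X Y s, ringOf_tow hX s le_rfl, fun j => ?_⟩
  obtain ⟨c, hc⟩ := hc j
  have h1 : (fun h => x h j) = fun h => pev c (entries X Y h) := funext hc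
  rw [h1]
  exact pev_mem _ c _ fun v => Algebra.subset_adjoin ⟨v, v.1.2, rfl⟩

end tower

end Pool.Agent.Y377.ST
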