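import Pool.Agent.Y377.ST.Def

/-!
One closed set for all families of points given by iterated recurrences of bounded complexity.
-/

set_option autoImplicit false

namespace Pool.Agent.Y377.ST

open MvPolynomial Pool.Agent.Y377.EL Pool.Agent.Y377.IL Pool.Agent.Y377.IR Pool.Agent.H533R3.SL

/-- nonvanishing sequences -/
theorem theta_ne {Θ : (ℕ → ℂ) →+* ℂ}
    (hΘ : ∀ f : ℕ → ℂ, (∃ n, ∀ i, n ≤ i → f i = 0) → Θ f = 0) {ι : Type} [Fintype ι]
    (f : ι → ℕ → ℂ) (n : ℕ) (h : ∀ i, n ≤ i → ∃ j, f j i ≠ 0) : ∃ j, Θ (f j) ≠ 0 := by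
  classical
  by_contra hcon
  push Not at hcon
  obtain ⟨j0, -⟩ := h n le_rfl
  have h' : ∀ i, ∃ j, n ≤ i → f j i ≠ 0 := by
    intro i
    by_cases hi : n ≤ i
    · obtain ⟨j, hj⟩ := h i hi
      exact ⟨j, fun _ => hj⟩
    · exact ⟨j0, fun h1 => absurd h1 hi⟩
  choose J hJ using h'
  let u : ι → ℕ → ℂ := fun j i => if J i = j then (f j i)⁻¹ else 0
  have h1 : Θ (∑ j, u j * f j) = 0 := by
    rw [map_sum]
    exact Finset.sum_eq_zero fun j _ => by rw [map_mul, hcon j, mul_zero]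
  have h2 : Θ (1 - ∑ j, u j * f j) = 0 := by
    apply hΘ
    refine ⟨n, fun i hi => ?_⟩
    have h3 : (∑ j, u j * f j) i = 1 := by
      rw [Finset.sum_apply, Finset.sum_eq_single (J i)]
      · change (if J i = J i then (f (J i) i)⁻¹ else 0) * f (J i) i = 1
        rw [if_pos rfl, inv_mul_cancel₀ (hJ i hi)]
      · intro j _ hj
        change (if J i = j then (f j i)⁻¹ else 0) * f j i = 0
        rw [if_neg (Ne.symm hj), zero_mul]
      · intro h4
        exact absurd (Finset.mem_univ _) h4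
    change 1 - (∑ j, u j * f j) i = 0
    rw [h3, sub_self]
  rw [map_sub, map_one, h1, sub_zero] at h2
  exact one_ne_zero h2

/-- forms and ratios -/
theorem form_div {k K : Type} [Field k] [Field K] [Algebra k K] {n : ℕ}
    {G : MvPolynomial (Fin (n + 1)) k} {d : ℕ} (hG : G.IsHomogeneous d) (y : Fin (n + 1) → K)
    {c : K} (hc : c ≠ 0) : aeval (fun j => y j / c) G = 0 ↔ aeval y G = 0 := by
  have h1 : aeval (fun j => y j / c) G = c⁻¹ ^ d * aeval y G := by
    have h2 : (fun j => y j / c) = fun j => c⁻¹ * y j := by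
      funext j
      rw [div_eq_mul_inv, mul_comm]
    rw [h2, aeval_def, aeval_def, eval₂_eq', eval₂_eq', Finset.mul_sum]
    refine Finset.sum_congr rfl fun m hm => ?_
    have h3 : ∑ i, m i = d := by
      have h4 := hG (mem_support_iff.1 hm)
      rw [← h4, Finsupp.weight_apply, Finsupp.sum_fintype _ _ (fun _ => by simp)]
      simp
    have h5 : ∏ i, (c⁻¹ * y i) ^ m i = c⁻¹ ^ d * ∏ i, y i ^ m i := by
      rw [← h3, ← Finset.prod_pow_eq_pow_sum, ← Finset.prod_mul_distrib]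
      exact Finset.prod_congr rfl fun i _ => mul_pow _ _ _
    rw [h5]
    ring
  rw [h1, mul_eq_zero]
  constructor
  · rintro (h2 | h2)
    · exact absurd h2 (pow_ne_zero _ (inv_ne_zero hc))
    · exact h2
  · exact Or.inr

section point

variable {H : Type} [Group H] {n : ℕ}

/-- a rational curve through the generic point of the closure of the values on a coset -/
theorem rat_point {R : Subalgebra ℂ (H → ℂ)} {x : H → Fin (n + 1) → ℂ}
    (hx : ∀ j, (fun h => x h j) ∈ R) {Nn : Subgroup H} {a b : H} {K : Type} [Field K] [Algebra ℂ K]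
    {Γ : Subgroup (K ≃ₐ[ℂ] K)} {ρ : R →ₐ[ℂ] K} (hρ : Res R Nn a K Γ ρ) {l : Fin (n + 1)}
    (hl : x a l ≠ 0) (hb : b * a⁻¹ ∈ Nn) {u v : Fin (n + 1)}
    (huv : x a u * x b v ≠ x a v * x b u) :
    ∃ (M : Type) (_ : Field M) (_ : Algebra ℂ M) (q : Fin (n + 1) → RatFunc M),
      (∀ (G : MvPolynomial (Fin (n + 1)) ℂ) (d : ℕ), G.IsHomogeneous d →
        (aeval q G = 0 ↔ ∀ g ∈ Nn, eval (x (g * a)) G = 0)) ∧ q l ≠ 0 ∧
      ∃ i, ∀ c : M, q i / q l ≠ algebraMap M (RatFunc M) c := by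
  classical
  let y : Fin (n + 1) → K := fun j => ρ ⟨fun h => x h j, hx j⟩
  have hyl : y l ≠ 0 := by
    intro h0
    have h1 := (hρ.ker _).1 h0 1 Nn.one_mem
    rw [one_mul] at h1
    exact hl h1
  let t : Finset K := Finset.univ.image fun j => y j / y l
  have ht : ∀ z ∈ t, z ∈ frac ρ.range := by
    intro z hz
    obtain ⟨j, -, rfl⟩ := Finset.mem_image.1 hz
    exact (frac ρ.range).div_mem (le_frac ρ.range ⟨_, rfl⟩) (le_frac ρ.range ⟨_, rfl⟩)
  have hne : ∃ z ∈ t, ¬ IsAlgebraic (⊥ : Subalgebra ℂ K) z := by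
    by_contra hcon
    push Not at hcon
    obtain ⟨c, hc⟩ := const_on (f := fun j h => x h j) hρ hx (l := l) hyl
      (fun j => hcon _ (Finset.mem_image_of_mem _ (Finset.mem_univ j)))
    have h1 : ∀ j, x b j = x b l * c j := by
      intro j
      have h2 := hc _ hb j
      rwa [inv_mul_cancel_right] at h2
    have h3 : ∀ j, x a j = x a l * c j := by
      intro j
      have h2 := hc 1 Nn.one_mem j
      rwa [one_mul] at h2
    apply huv
    rw [h1 v, h3 u, h3 v, h1 u]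
    ring
  obtain ⟨S0, M, i1, i2, φ, -, h2, -, ⟨z, hz, hzc⟩, -⟩ := coset_alt hyp ghyp hρ t ht hne
  have hm : ∀ j, y j / y l ∈ frac S0 := fun j =>
    h2 _ (Finset.mem_image_of_mem _ (Finset.mem_univ j))
  let w : Fin (n + 1) → frac S0 := fun j => ⟨y j / y l, hm j⟩
  refine ⟨M, i1, i2, fun j => φ (w j), fun G d hG => ?_, ?_, ?_⟩
  · have h3 : aeval (fun j => φ (w j)) G = φ (aeval w G) :=
      (MvPolynomial.comp_aeval_apply (f := w) φ G).symm
    have h4 : ((aeval w G : frac S0) : K) = aeval (fun j => y j / y l) G :=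
      MvPolynomial.comp_aeval_apply (f := w) (frac S0).val G
    rw [h3, map_eq_zero_iff φ φ.toRingHom.injective, ← Subtype.coe_inj, h4]
    change aeval (fun j => y j / y l) G = 0 ↔ _
    rw [form_div hG y hyl]
    exact val_res (f := fun j h => x h j) hρ hx G
  · have h3 : w l = 1 := Subtype.ext (div_self hyl)
    change φ (w l) ≠ 0
    rw [h3, map_one]
    exact one_ne_zero
  · obtain ⟨i, -, hi⟩ := Finset.mem_image.1 hz
    refine ⟨i, fun c hc => hzc c ?_⟩
    have h3 : w l = 1 := Subtype.ext (div_self hyl)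
    have h4 : w i = z := Subtype.ext hi
    change φ (w i) / φ (w l) = _ at hc
    rw [h3, map_one, div_one, h4] at hc
    exact hc

end point

/-- the sequences of points of a family -/
theorem exists_seq {k : Type} [Field k] {n s r e : ℕ} {FF : Set (MvPolynomial (Fin (n + 1)) k)}
    {G : MvPolynomial (Fin (n + 1)) k} {L : Type} [Field L] [Algebra k L] (τ : L →+* ℂ)
    {H : Type} [Group H] {x : H → Fin (n + 1) → L} (hx : IterVec s r e x)
    (hF : ∀ h, ∀ F ∈ FF, aeval (x h) F = 0) (hinf : (ptsOff G x).Infinite) :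
    ∃ (σ : k →+* ℂ) (H : Type) (_ : Group H) (x : H → Fin (n + 1) → ℂ), IterVec s r e x ∧
      (∀ h, ∀ F ∈ FF, eval₂ σ (x h) F = 0) ∧ ∃ hs : ℕ → H, (∀ i, eval₂ σ (x (hs i)) G ≠ 0) ∧
        (∀ i, x (hs i) ≠ 0) ∧
        ∀ i j, i ≠ j → ∃ u v, x (hs i) u * x (hs j) v ≠ x (hs i) v * x (hs j) u := by
  classical
  have hev : ∀ h F, eval₂ (τ.comp (algebraMap k L)) (fun j => τ (x h j)) F =
      τ (aeval (x h) F) := fun h F => (eval₂_comp_left τ (algebraMap k L) (x h) F).symm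
  let P : ℕ ↪ (ptsOff G x) := hinf.natEmbedding
  choose hs h0 hG hP using fun i => (P i).2
  refine ⟨τ.comp (algebraMap k L), H, inferInstance, fun h j => τ (x h j), hx.map τ, ?_, hs,
    ?_, ?_, ?_⟩
  · intro h F hFF
    rw [hev, hF h F hFF, map_zero]
  · intro i h1
    rw [hev, map_eq_zero] at h1
    exact hG i h1
  · intro i h1
    apply h0 i
    funext j
    have h2 := congrFun h1 j
    exact (map_eq_zero τ).1 h2
  · intro i j hij
    by_contra hcon
    push Not at hcon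
    apply hij
    apply P.injective
    apply Subtype.ext
    rw [hP i, hP j, Projectivization.mk_eq_mk_iff']
    obtain ⟨v0, hv0⟩ := Function.ne_iff.1 (h0 j)
    have hv0' : x (hs j) v0 ≠ 0 := hv0
    refine ⟨x (hs i) v0 / x (hs j) v0, ?_⟩
    funext u
    rw [Pi.smul_apply, smul_eq_mul]
    have h1 := hcon u v0
    rw [← map_mul, ← map_mul] at h1
    have h2 := τ.injective h1
    rw [div_mul_eq_mul_div, ← h2, mul_div_assoc, div_self hv0', mul_one]

/-- **Strong Lang for iterated recurrences.** -/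
theorem strong (hT : S_THETA) (hU : S_UNI) {k : Type} [Field k] [Countable k] {n : ℕ}
    (FF : Set (MvPolynomial (Fin (n + 1)) k)) (hhom : ∀ F ∈ FF, ∃ e, F.IsHomogeneous e)
    (hprime : (Ideal.span FF).IsPrime) (hnu : ¬ Uniruled (Ideal.span FF)) (s r e : ℕ) :
    ∃ G : MvPolynomial (Fin (n + 1)) k, (∃ d, G.IsHomogeneous d) ∧ G ∉ Ideal.span FF ∧
      ∀ (L : Type) [Field L] [Algebra k L] (_ : L →+* ℂ) (H : Type) [Group H]
        (x : H → Fin (n + 1) → L), IterVec s r e x → (∀ h, ∀ F ∈ FF, aeval (x h) F = 0) →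
        (ptsOff G x).Finite := by
  classical
  by_contra hcon
  have hC : ∀ G : MvPolynomial (Fin (n + 1)) k, (∃ d, G.IsHomogeneous d) → G ∉ Ideal.span FF →
      ∃ (σ : k →+* ℂ) (H : Type) (_ : Group H) (x : H → Fin (n + 1) → ℂ), IterVec s r e x ∧
        (∀ h, ∀ F ∈ FF, eval₂ σ (x h) F = 0) ∧ ∃ hs : ℕ → H,
          (∀ i, eval₂ σ (x (hs i)) G ≠ 0) ∧ (∀ i, x (hs i) ≠ 0) ∧
          ∀ i j, i ≠ j → ∃ u v, x (hs i) u * x (hs j) v ≠ x (hs i) v * x (hs j) u := by
    intro G hG1 hG2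
    by_contra h1
    refine hcon ⟨G, hG1, hG2, ?_⟩
    intro L _ _ τ H _ x hx hF
    by_contra h2
    exact h1 (exists_seq τ hx hF h2)
  -- an enumeration of the forms
  let S : Type := {G : MvPolynomial (Fin (n + 1)) k // (∃ d, G.IsHomogeneous d) ∧
    G ∉ Ideal.span FF}
  have hcs : Countable (MvPolynomial (Fin (n + 1)) k) := by
    rw [← Cardinal.mk_le_aleph0_iff]
    refine cardinalMk_le_max.trans ?_
    exact max_le (max_le (Cardinal.mk_le_aleph0_iff.2 inferInstance)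
      (Cardinal.mk_le_aleph0_iff.2 inferInstance)) le_rfl
  have hne : Nonempty S := ⟨⟨1, ⟨0, isHomogeneous_one _ _⟩,
    fun h1 => hprime.ne_top ((Ideal.eq_top_iff_one _).2 h1)⟩⟩
  obtain ⟨en, hen⟩ := exists_surjective_nat S
  let Q : ℕ → MvPolynomial (Fin (n + 1)) k := fun i => ∏ j ∈ Finset.range (i + 1), (en j).1
  have hQ1 : ∀ i, ∃ d, (Q i).IsHomogeneous d := by
    intro i
    choose d hd using fun j => (en j).2.1
    exact ⟨_, IsHomogeneous.prod _ _ d fun j _ => hd j⟩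
  have hQ2 : ∀ i, Q i ∉ Ideal.span FF := by
    intro i h1
    obtain ⟨j, -, hj⟩ := (hprime.prod_mem_iff).1 h1
    exact (en j).2.2 hj
  choose σ Hs iH x hx hF hs hG h0 hnp using fun i => hC (Q i) (hQ1 i) (hQ2 i)
  obtain ⟨Θ, hΘ⟩ := hT
  let σs : k →+* ℂ := Θ.comp (RingHom.pi σ)
  let xs : (∀ i, Hs i) → Fin (n + 1) → ℂ := fun h j => Θ fun i => x i (h i) j
  have hxs : IterVec s r e xs := (IterVec.prod hx).map Θ
  have key : ∀ (F : MvPolynomial (Fin (n + 1)) k) (h : ∀ i, Hs i),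
      eval₂ σs (xs h) F = Θ fun i => eval₂ (σ i) (x i (h i)) F := by
    intro F h
    have h1 := eval₂_comp_left Θ (RingHom.pi σ) (fun j i => x i (h i) j) F
    have h2 : eval₂ (RingHom.pi σ) (fun j i => x i (h i) j) F =
        fun i => eval₂ (σ i) (x i (h i)) F := by
      funext i
      have h3 := eval₂_comp_left (Pi.evalRingHom (fun _ : ℕ => ℂ) i) (RingHom.pi σ)
        (fun j i => x i (h i) j) F
      exact h3
    rw [h2] at h1
    exact h1.symm
  let a : ℕ → ∀ i, Hs i := fun m i => hs i m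
  have hzero : ∀ F ∈ FF, ∀ h, eval₂ σs (xs h) F = 0 := by
    intro F hFF h
    rw [key]
    have h1 : (fun i => eval₂ (σ i) (x i (h i)) F) = 0 := funext fun i => hF i (h i) F hFF
    rw [h1, map_zero]
  have hnz : ∀ G : MvPolynomial (Fin (n + 1)) k, (∃ d, G.IsHomogeneous d) →
      G ∉ Ideal.span FF → ∀ m, eval₂ σs (xs (a m)) G ≠ 0 := by
    intro G hG1 hG2 m
    obtain ⟨j, hj⟩ := hen ⟨G, hG1, hG2⟩
    rw [key]
    have h6 : ∀ i, j ≤ i → eval₂ (σ i) (x i (a m i)) G ≠ 0 := by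
      intro i hi h5
      have h4 : (en j).1 ∣ Q i := Finset.dvd_prod_of_mem (fun j => (en j).1)
        (Finset.mem_range.2 (by omega))
      rw [hj] at h4
      obtain ⟨G', hG'⟩ := h4
      have h7 : eval₂ (σ i) (x i (hs i m)) (Q i) = 0 := by
        rw [hG', eval₂_mul]
        change eval₂ (σ i) (x i (a m i)) G * _ = 0
        rw [h5, zero_mul]
      exact hG i m h7
    obtain ⟨-, h1⟩ := theta_ne hΘ (fun _ : Unit => fun i => eval₂ (σ i) (x i (a m i)) G) j
      (fun i hi => ⟨(), h6 i hi⟩)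
    exact h1
  have hxne : ∀ m, ∃ l, xs (a m) l ≠ 0 := fun m =>
    theta_ne hΘ (fun l i => x i (a m i) l) 0 fun i _ => Function.ne_iff.1 (h0 i m)
  have hcross : ∀ m m', m ≠ m' → ∃ u v, xs (a m) u * xs (a m') v ≠ xs (a m) v * xs (a m') u := by
    intro m m' hmm
    obtain ⟨⟨u, v⟩, h1⟩ := theta_ne hΘ (fun (p : Fin (n + 1) × Fin (n + 1)) i =>
      x i (a m i) p.1 * x i (a m' i) p.2 - x i (a m i) p.2 * x i (a m' i) p.1) 0 (fun i _ => by
        obtain ⟨u, v, h1⟩ := hnp i m m' hmm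
        exact ⟨(u, v), sub_ne_zero.2 h1⟩)
    refine ⟨u, v, fun h2 => h1 ?_⟩
    have h3 : (fun i => x i (a m i) u * x i (a m' i) v - x i (a m i) v * x i (a m' i) u) =
        (fun i => x i (a m i) u) * (fun i => x i (a m' i) v) -
          (fun i => x i (a m i) v) * (fun i => x i (a m' i) u) := rfl
    change Θ (fun i => x i (a m i) u * x i (a m' i) v - x i (a m i) v * x i (a m' i) u) = 0
    rw [h3, map_sub, map_mul, map_mul]
    exact sub_eq_zero.2 h2
  obtain ⟨R, hR, hmem⟩ := hxs.tow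
  obtain ⟨Nn, hn, hfi, hres⟩ := exists_res fhyp hR
  have hq : Finite ((∀ i, Hs i) ⧸ Nn) := inferInstance
  obtain ⟨m, m', hmm, hmk⟩ := Finite.exists_ne_map_eq_of_infinite
    fun m : ℕ => (QuotientGroup.mk (a m) : (∀ i, Hs i) ⧸ Nn)
  have hco : a m' * (a m)⁻¹ ∈ Nn := hn.mem_comm (QuotientGroup.eq.1 hmk)
  obtain ⟨l, hl⟩ := hxne m
  obtain ⟨u, v, huv⟩ := hcross m m' hmm
  obtain ⟨K, i1, i2, Γ, ρ, hρ⟩ := hres (a m)
  obtain ⟨M, j1, j2, q, hq1, hq2, hq3⟩ := rat_point hmem hρ hl hco huv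
  apply hnu
  let _ : Algebra k M := ((algebraMap ℂ M).comp σs).toAlgebra
  have hcz : CharZero M := charZero_of_injective_algebraMap (algebraMap ℂ M).injective
  have hal : algebraMap k (RatFunc M) = (algebraMap ℂ (RatFunc M)).comp σs := by
    ext c
    rw [IsScalarTower.algebraMap_apply k M (RatFunc M), RingHom.comp_apply,
      IsScalarTower.algebraMap_apply ℂ M (RatFunc M)]
    rfl
  have hae : ∀ F : MvPolynomial (Fin (n + 1)) k, aeval q F = aeval q (map σs F) := by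
    intro F
    rw [aeval_def, aeval_def, eval₂_map, hal]
  refine hU k n FF hhom M q ?_ ?_ ?_
  · intro F hFF d hd
    rw [hae, hq1 _ d (hd.map σs)]
    intro g _
    rw [eval_map]
    exact hzero F hFF _
  · rintro G ⟨d, hd⟩ hG2 h1
    rw [hae, hq1 _ d (hd.map σs)] at h1
    have h2 := h1 1 Nn.one_mem
    rw [one_mul, eval_map] at h2
    exact hnz G ⟨d, hd⟩ hG2 m h2
  · obtain ⟨i, hi⟩ := hq3
    exact ⟨i, l, hq2, hi⟩

end Pool.Agent.Y377.ST
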