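import Mathlib
import Pool.Agent.H533R3.SL.Cur

/-!
Statements of the project ST (strong Lang for iterated recurrences).
-/

set_option autoImplicit false

namespace Pool.Agent.Y377.ST

open MvPolynomial Pool.Agent.H533R3.SL

/-- a homomorphism from sequences of complex numbers to complex numbers which kills the sequences
with finitely many nonzero terms -/
def S_THETA : Prop := ∃ Θ : (ℕ → ℂ) →+* ℂ, ∀ f : ℕ → ℂ, (∃ n, ∀ i, n ≤ i → f i = 0) → Θ f = 0

/-- a nonconstant generic point with coordinates rational functions -/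
def S_UNI : Prop := ∀ (k : Type) [Field k] (n : ℕ) (FF : Set (MvPolynomial (Fin (n + 1)) k)),
  (∀ F ∈ FF, ∃ e, F.IsHomogeneous e) → ∀ (M : Type) [Field M] [CharZero M] [Algebra k M]
    (q : Fin (n + 1) → RatFunc M),
    (∀ F ∈ FF, ∀ e, F.IsHomogeneous e → aeval q F = 0) →
    (∀ G : MvPolynomial (Fin (n + 1)) k, (∃ e, G.IsHomogeneous e) → G ∉ Ideal.span FF →
      aeval q G ≠ 0) →
    (∃ i l, q l ≠ 0 ∧ ∀ c : M, q i / q l ≠ algebraMap M (RatFunc M) c) →
      Uniruled (Ideal.span FF)

end Pool.Agent.Y377.ST
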