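import Pool.Agent.Y377.ST.Conv
import Pool.Agent.TH717.GO.UE
import Pool.Agent.TH409.SH.Fin2

/-!
Uniform bounds for families of points on varieties without rational curves.
-/

set_option autoImplicit false

namespace Pool.Agent.Y377.ST

open MvPolynomial Pool.Agent.Y377.EL Pool.Agent.Y377.IL Pool.Agent.Y377.IR Pool.Agent.H533R3.SL
  Pool.Agent.TH717.GO

/-- The points with the homogeneous coordinates `x(h)`, `x(h) ≠ 0`. -/
def ptsOf {L H : Type} [Field L] {n : ℕ} (x : H → Fin (n + 1) → L) :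
    Set (Projectivization L (Fin (n + 1) → L)) :=
  {P | ∃ (h : H) (h0 : x h ≠ 0), P = Projectivization.mk L (x h) h0}

/-- different points -/
theorem exists_seqB {k : Type} [Field k] {n s r e : ℕ} {FF : Set (MvPolynomial (Fin (n + 1)) k)}
    {L : Type} [Field L] [Algebra k L] (τ : L →+* ℂ)
    {H : Type} [Group H] {x : H → Fin (n + 1) → L} (hx : IterVec s r e x)
    (hF : ∀ h, ∀ F ∈ FF, aeval (x h) F = 0) {B : ℕ} (hB : ¬ (ptsOf x).encard ≤ (B : ℕ∞)) :
    ∃ (σ : k →+* ℂ) (H : Type) (_ : Group H) (x : H → Fin (n + 1) → ℂ), IterVec s r e x ∧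
      (∀ h, ∀ F ∈ FF, eval₂ σ (x h) F = 0) ∧ ∃ hs : ℕ → H,
        (∀ i, x (hs i) ≠ 0) ∧
        ∀ i j, i ≤ B → j ≤ B → i ≠ j →
          ∃ u v, x (hs i) u * x (hs j) v ≠ x (hs i) v * x (hs j) u := by
  classical
  have hev : ∀ h F, eval₂ (τ.comp (algebraMap k L)) (fun j => τ (x h j)) F =
      τ (aeval (x h) F) := fun h F => (eval₂_comp_left τ (algebraMap k L) (x h) F).symm
  have h1 : ((B + 1 : ℕ) : ℕ∞) ≤ (ptsOf x).encard := by
    rw [Nat.cast_add, Nat.cast_one]
    exact Order.add_one_le_of_lt (not_le.1 hB)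
  obtain ⟨t, hts, htc⟩ := Set.exists_subset_encard_eq h1
  have htf : t.Finite := Set.finite_of_encard_eq_coe htc
  have hcard : htf.toFinset.card = B + 1 := by
    have h2 := htf.encard_eq_coe_toFinset_card
    rw [htc] at h2
    exact_mod_cast h2.symm
  let P : Fin (B + 1) ≃ htf.toFinset := (Finset.equivFinOfCardEq hcard).symm
  have hP : ∀ i : Fin (B + 1), ((P i : htf.toFinset) : Projectivization L (Fin (n + 1) → L)) ∈
      ptsOf x := fun i => hts (htf.mem_toFinset.1 (P i).2)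
  choose hs0 h0 hPe using hP
  let c : ℕ → Fin (B + 1) := fun i => if hi : i < B + 1 then ⟨i, hi⟩ else 0
  refine ⟨τ.comp (algebraMap k L), H, inferInstance, fun h j => τ (x h j), hx.map τ, ?_,
    fun i => hs0 (c i), ?_, ?_⟩
  · intro h F hFF
    rw [hev, hF h F hFF, map_zero]
  · intro i h2
    apply h0 (c i)
    funext j
    have h3 := congrFun h2 j
    exact (map_eq_zero τ).1 h3
  · intro i j hi hj hij
    have hci : c i = ⟨i, by omega⟩ := dif_pos (by omega)
    have hcj : c j = ⟨j, by omega⟩ := dif_pos (by omega)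
    have hcij : c i ≠ c j := by
      rw [hci, hcj]
      intro h2
      exact hij (Fin.mk.inj_iff.1 h2)
    by_contra hcon
    push Not at hcon
    apply hcij
    apply P.injective
    apply Subtype.ext
    rw [hPe (c i), hPe (c j), Projectivization.mk_eq_mk_iff']
    obtain ⟨v0, hv0⟩ := Function.ne_iff.1 (h0 (c j))
    have hv0' : x (hs0 (c j)) v0 ≠ 0 := hv0
    refine ⟨x (hs0 (c i)) v0 / x (hs0 (c j)) v0, ?_⟩
    funext u
    rw [Pi.smul_apply, smul_eq_mul]
    have h2 := hcon u v0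
    rw [← map_mul, ← map_mul] at h2
    have h3 := τ.injective h2
    rw [div_mul_eq_mul_div, ← h3, mul_div_assoc, div_self hv0', mul_one]

/-- **Uniform bounds.** -/
theorem uniform {k : Type} [Field k] {n : ℕ} (FF : Set (MvPolynomial (Fin (n + 1)) k))
    (hhom : ∀ F ∈ FF, ∃ e, F.IsHomogeneous e)
    (hno : ∀ R, CurCond FF (1 : MvPolynomial (Fin (n + 1)) k) R) (s r e : ℕ) :
    ∃ B : ℕ, ∀ (L : Type) [Field L] [Algebra k L] (_ : L →+* ℂ) (H : Type) [Group H]
        (x : H → Fin (n + 1) → L), IterVec s r e x → (∀ h, ∀ F ∈ FF, aeval (x h) F = 0) →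
        (ptsOf x).encard ≤ (B : ℕ∞) := by
  classical
  by_contra hcon
  have hC : ∀ B : ℕ,
      ∃ (σ : k →+* ℂ) (H : Type) (_ : Group H) (x : H → Fin (n + 1) → ℂ), IterVec s r e x ∧
        (∀ h, ∀ F ∈ FF, eval₂ σ (x h) F = 0) ∧ ∃ hs : ℕ → H, (∀ i, x (hs i) ≠ 0) ∧
          ∀ i j, i ≤ B → j ≤ B → i ≠ j →
            ∃ u v, x (hs i) u * x (hs j) v ≠ x (hs i) v * x (hs j) u := by
    intro B
    by_contra h1
    refine hcon ⟨B, ?_⟩
    intro L _ _ τ H _ x hx hF
    by_contra h2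
    exact h1 (exists_seqB τ hx hF h2)
  choose σ Hs iH x hx hF hs h0 hnp using hC
  obtain ⟨Θ, hΘ⟩ := Pool.Agent.Y455.ST.t_THETA
  let σs : k →+* ℂ := Θ.comp (RingHom.pi σ)
  let xs : (∀ i, Hs i) → Fin (n + 1) → ℂ := fun h j => Θ fun i => x i (h i) j
  have hxs : IterVec s r e xs := (IterVec.prod hx).map Θ
  have key : ∀ (F : MvPolynomial (Fin (n + 1)) k) (h : ∀ i, Hs i),
      eval₂ σs (xs h) F = Θ fun i => eval₂ (σ i) (x i (h i)) F := by
    intro F h
    have h1 := eval₂_comp_left Θ (RingHom.pi σ) (fun j i => x i (h i) j) F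
    have h2 : eval₂ (RingHom.pi σ) (fun j i => x i (h i) j) F =
        fun i => eval₂ (σ i) (x i (h i)) F := by
      funext i
      have h3 := eval₂_comp_left (Pi.evalRingHom (fun _ : ℕ => ℂ) i) (RingHom.pi σ)
        (fun j i => x i (h i) j) F
      exact h3
    rw [h2] at h1
    exact h1.symm
  let a : ℕ → ∀ i, Hs i := fun m i => hs i m
  have hzero : ∀ F ∈ FF, ∀ h, eval₂ σs (xs h) F = 0 := by
    intro F hFF h
    rw [key]
    have h1 : (fun i => eval₂ (σ i) (x i (h i)) F) = 0 := funext fun i => hF i (h i) F hFF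
    rw [h1, map_zero]
  have hxne : ∀ m, ∃ l, xs (a m) l ≠ 0 := fun m =>
    theta_ne hΘ (fun l i => x i (a m i) l) 0 fun i _ => Function.ne_iff.1 (h0 i m)
  have hcross : ∀ m m', m ≠ m' → ∃ u v, xs (a m) u * xs (a m') v ≠ xs (a m) v * xs (a m') u := by
    intro m m' hmm
    obtain ⟨⟨u, v⟩, h1⟩ := theta_ne hΘ (fun (p : Fin (n + 1) × Fin (n + 1)) i =>
      x i (a m i) p.1 * x i (a m' i) p.2 - x i (a m i) p.2 * x i (a m' i) p.1) (max m m')
      (fun i hi => by
        obtain ⟨u, v, h1⟩ := hnp i m m' ((le_max_left _ _).trans hi)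
          ((le_max_right _ _).trans hi) hmm
        exact ⟨(u, v), sub_ne_zero.2 h1⟩)
    refine ⟨u, v, fun h2 => h1 ?_⟩
    have h3 : (fun i => x i (a m i) u * x i (a m' i) v - x i (a m i) v * x i (a m' i) u) =
        (fun i => x i (a m i) u) * (fun i => x i (a m' i) v) -
          (fun i => x i (a m i) v) * (fun i => x i (a m' i) u) := rfl
    change Θ (fun i => x i (a m i) u * x i (a m' i) v - x i (a m i) v * x i (a m' i) u) = 0
    rw [h3, map_sub, map_mul, map_mul]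
    exact sub_eq_zero.2 h2
  obtain ⟨R, hR, hmem⟩ := hxs.tow
  obtain ⟨Nn, hn, hfi, hres⟩ := exists_res fhyp hR
  have hq : Finite ((∀ i, Hs i) ⧸ Nn) := inferInstance
  obtain ⟨m, m', hmm, hmk⟩ := Finite.exists_ne_map_eq_of_infinite
    fun m : ℕ => (QuotientGroup.mk (a m) : (∀ i, Hs i) ⧸ Nn)
  have hco : a m' * (a m)⁻¹ ∈ Nn := hn.mem_comm (QuotientGroup.eq.1 hmk)
  obtain ⟨l, hl⟩ := hxne m
  obtain ⟨u, v, huv⟩ := hcross m m' hmm
  obtain ⟨K, i1, i2, Γ, ρ, hρ⟩ := hres (a m)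
  obtain ⟨M, j1, j2, q, hq1, hq2, i, hq3⟩ := rat_point hmem hρ hl hco huv
  let _ : Algebra k M := ((algebraMap ℂ M).comp σs).toAlgebra
  have hcz : CharZero M := charZero_of_injective_algebraMap (algebraMap ℂ M).injective
  have hal : algebraMap k (RatFunc M) = (algebraMap ℂ (RatFunc M)).comp σs := by
    ext c
    rw [IsScalarTower.algebraMap_apply k M (RatFunc M), RingHom.comp_apply,
      IsScalarTower.algebraMap_apply ℂ M (RatFunc M)]
    rfl
  have hae : ∀ F : MvPolynomial (Fin (n + 1)) k, aeval q F = aeval q (map σs F) := by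
    intro F
    rw [aeval_def, aeval_def, eval₂_map, hal]
  have hFq : ∀ F ∈ FF, aeval q F = 0 := by
    intro F hFF
    obtain ⟨d, hd⟩ := hhom F hFF
    rw [hae, hq1 _ d (hd.map σs)]
    intro g _
    rw [eval_map]
    exact hzero F hFF _
  obtain ⟨L', iL, iA, p, hp1, -, i', l', hp3⟩ := Pool.Agent.Y837.ST.t_UNI k n
    {F | (∃ d, F.IsHomogeneous d) ∧ aeval q F = 0} (fun F hF' => hF'.1) M q
    (fun F hF' _ _ => hF'.2)
    (fun G hG1 hG2 h1 => hG2 (Ideal.subset_span ⟨hG1, h1⟩)) ⟨i, l, hq2, hq3⟩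
  apply hp3
  refine hno (Finset.univ.biUnion fun i => (p i).support).card L' p
    (Finset.univ.biUnion fun i => (p i).support) le_rfl
    (fun i => Finset.subset_biUnion_of_mem (fun i => (p i).support) (Finset.mem_univ i)) ?_
    (by rw [map_one]; exact one_ne_zero) i' l'
  intro F hFF
  exact hp1 F (Ideal.subset_span ⟨hhom F hFF, hFq F hFF⟩)

end Pool.Agent.Y377.ST
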